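import Mathlib
import Pool.Agent.H102R3.SKS

set_option autoImplicit false
open MeasureTheory ProbabilityTheory Set

namespace Pool.Agent.H150R3.SK
open Pool.H102.SK

theorem G_eq (ι : Type) [Fintype ι] :
    G ι = (stdGaussian (EuclideanSpace ℝ ι)).map (EuclideanSpace.equiv ι ℝ) := by
  rw [← map_pi_eq_stdGaussian, Measure.map_map (by fun_prop) (by fun_prop)]
  have : (EuclideanSpace.equiv ι ℝ : EuclideanSpace ℝ ι → ι → ℝ) ∘ (WithLp.toLp 2) = id := by
    ext x i; simp
  rw [this, Measure.map_id]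

theorem isG (ι : Type) [Fintype ι] : IsGaussian (G ι) := by
  rw [G_eq]; infer_instance

theorem meanG (ι : Type) [Fintype ι] (L : StrongDual ℝ (ι → ℝ)) : ∫ x, L x ∂(G ι) = 0 := by
  rw [G_eq, integral_map (by fun_prop) (by fun_prop)]
  exact integral_strongDual_stdGaussian (E := EuclideanSpace ℝ ι)
    (L.comp (EuclideanSpace.equiv ι ℝ).toContinuousLinearMap)

theorem tRot : TRot := by
  intro ι _ θ
  have := isG ι
  have h := IsGaussian.map_rotation_eq_self_of_forall_strongDual_eq_zero (μ := G ι) (meanG ι) θ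
  constructor
  · fun_prop
  · exact h

/-- law of a linear combination of two independent standard Gaussian vectors -/
theorem lin (ι : Type) [Fintype ι] (a b t : ℝ) (h : a ^ 2 + b ^ 2 = t ^ 2) :
    ((G ι).prod (G ι)).map (fun p : (ι → ℝ) × (ι → ℝ) => (fun i => a * p.1 i + b * p.2 i : ι → ℝ)) =
      (G ι).map (fun z => (fun i => t * z i : ι → ℝ)) := by
  by_cases ht : t = 0
  · subst ht
    have ha : a = 0 := by nlinarith [sq_nonneg a, sq_nonneg b]
    have hb : b = 0 := by nlinarith [sq_nonneg a, sq_nonneg b]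
    subst ha hb
    simp only [zero_mul, add_zero]
    rw [Measure.map_const, Measure.map_const]
    simp
  · have h1 : (a / t) ^ 2 + (b / t) ^ 2 = 1 := by
      rw [div_pow, div_pow, ← add_div, h]; exact div_self (pow_ne_zero 2 ht)
    obtain ⟨φ, hc, hs⟩ : ∃ φ : ℝ, Real.cos φ = a / t ∧ Real.sin φ = b / t := by
      have hn : ‖(⟨a / t, b / t⟩ : ℂ)‖ = 1 := by
        rw [Complex.norm_def, Complex.normSq_mk, ← sq, ← sq, h1, Real.sqrt_one]
      have hne : (⟨a / t, b / t⟩ : ℂ) ≠ 0 := by
        intro h0; rw [h0] at hn; simp at hn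
      refine ⟨Complex.arg ⟨a / t, b / t⟩, ?_, ?_⟩
      · rw [Complex.cos_arg hne, hn]; simp
      · rw [Complex.sin_arg, hn]; simp
    have hR := tRot ι φ
    have h2 : (fun p : (ι → ℝ) × (ι → ℝ) => (fun i => a * p.1 i + b * p.2 i : ι → ℝ)) =
        (fun z : ι → ℝ => (fun i => t * z i : ι → ℝ)) ∘ Prod.fst ∘
          (fun p : (ι → ℝ) × (ι → ℝ) =>
    ((fun i => Real.cos φ * p.1 i + Real.sin φ * p.2 i : ι → ℝ),
      (fun i => -Real.sin φ * p.1 i + Real.cos φ * p.2 i : ι → ℝ))) := by
      funext p i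
      simp only [Function.comp, hc, hs]
      field_simp
    rw [h2, ← Measure.map_map (by fun_prop) (by fun_prop), ← Measure.map_map (by fun_prop) hR.1,
      hR.2]
    congr 1
    exact (measurePreserving_fst (μ := G ι) (ν := G ι)).map_eq

/-- the pair kernel -/
noncomputable def gk {ι : Type} [Fintype ι] (m : (ι → ℝ) → ι → ℝ) (u v : ι → ℝ) : ℝ :=
  ∑ i, m u i * m v i

section
variable {ι : Type} [Fintype ι] {m : (ι → ℝ) → ι → ℝ} {B : ℝ}

theorem gk_meas (hm : Measurable m) :
    Measurable (fun p : (ι → ℝ) × (ι → ℝ) => gk m p.1 p.2) := by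
  unfold gk
  refine Finset.measurable_sum _ fun i _ => ?_
  exact ((measurable_pi_apply i).comp (hm.comp measurable_fst)).mul
    ((measurable_pi_apply i).comp (hm.comp measurable_snd))

theorem gk_bd (hB : ∀ x, ∑ i, m x i ^ 2 ≤ B) (u v : ι → ℝ) : |gk m u v| ≤ B := by
  have h1 : ∑ i, |m u i * m v i| ≤ ∑ i, (m u i ^ 2 + m v i ^ 2) / 2 := by
    refine Finset.sum_le_sum fun i _ => ?_
    rw [abs_le]
    constructor <;> nlinarith [sq_nonneg (m u i + m v i), sq_nonneg (m u i - m v i)]
  rw [← Finset.sum_div, Finset.sum_add_distrib] at h1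
  have h2 := Finset.abs_sum_le_sum_abs (fun i => m u i * m v i) Finset.univ
  have := hB u
  have := hB v
  unfold gk
  linarith

omit [Fintype ι] in
theorem m_meas (hm : Measurable m) (i : ι) : Measurable (fun x => m x i) :=
  (measurable_pi_apply i).comp hm

theorem m_bd (hB : ∀ x, ∑ i, m x i ^ 2 ≤ B) (x : ι → ℝ) (i : ι) : |m x i| ≤ Real.sqrt B :=
  Real.abs_le_sqrt ((Finset.single_le_sum (f := fun i => m x i ^ 2) (fun _ _ => sq_nonneg _)
    (Finset.mem_univ i)).trans (hB x))

theorem m_int (hm : Measurable m) (hB : ∀ x, ∑ i, m x i ^ 2 ≤ B) (i : ι)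
    {φ : (ι → ℝ) → (ι → ℝ)} (hφ : Measurable φ) :
    Integrable (fun z => m (φ z) i) (G ι) := by
  refine Integrable.of_bound ((m_meas hm i).comp hφ).aestronglyMeasurable (Real.sqrt B) ?_
  exact Filter.Eventually.of_forall fun z => by
    rw [Real.norm_eq_abs]; exact m_bd hB _ i

theorem stepA (hm : Measurable m) (hB : ∀ x, ∑ i, m x i ^ 2 ≤ B) (c : ℝ) (x : ι → ℝ) :
    ∑ i, (∫ z, m (fun j => c * x j + Real.sqrt (1 - c ^ 2) * z j) i ∂(G ι)) ^ 2 =
      ∫ z, ∫ z', gk m (fun j => c * x j + Real.sqrt (1 - c ^ 2) * z j)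
        (fun j => c * x j + Real.sqrt (1 - c ^ 2) * z' j) ∂(G ι) ∂(G ι) := by
  have hφ : Measurable (fun z : ι → ℝ => (fun j => c * x j + Real.sqrt (1 - c ^ 2) * z j : ι → ℝ)) := by
    fun_prop
  have h1 : ∀ z : ι → ℝ, ∫ z', gk m (fun j => c * x j + Real.sqrt (1 - c ^ 2) * z j)
        (fun j => c * x j + Real.sqrt (1 - c ^ 2) * z' j) ∂(G ι) =
        ∑ i, m (fun j => c * x j + Real.sqrt (1 - c ^ 2) * z j) i *
          ∫ z', m (fun j => c * x j + Real.sqrt (1 - c ^ 2) * z' j) i ∂(G ι) := by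
    intro z
    unfold gk
    rw [integral_finsetSum _ (fun i _ => (m_int hm hB i hφ).const_mul _)]
    refine Finset.sum_congr rfl fun i _ => ?_
    rw [integral_const_mul]
  simp_rw [h1]
  rw [integral_finsetSum _ (fun i _ => (m_int hm hB i hφ).mul_const _)]
  refine Finset.sum_congr rfl fun i _ => ?_
  rw [integral_mul_const, sq]

theorem psi_eq (hm : Measurable m) (hB : ∀ x, ∑ i, m x i ^ 2 ≤ B) (c : ℝ) (h0 : 0 ≤ c)
    (h1 : c ≤ 1) : Psi m c = Pair m (c ^ 2) := by
  have hs0 : 0 ≤ Real.sqrt (1 - c ^ 2) := Real.sqrt_nonneg _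
  have hs2 : Real.sqrt (1 - c ^ 2) ^ 2 = 1 - c ^ 2 := Real.sq_sqrt (by nlinarith)
  have hcos : Real.cos (Real.arccos c) = c := Real.cos_arccos (by linarith) h1
  have hsin : Real.sin (Real.arccos c) = Real.sqrt (1 - c ^ 2) := Real.sin_arccos c
  have hR := tRot ι (Real.arccos c)
  rw [hcos, hsin] at hR
  have ht2 : Real.sqrt (1 - (c ^ 2) ^ 2) ^ 2 = 1 - (c ^ 2) ^ 2 :=
    Real.sq_sqrt (by nlinarith [sq_nonneg c, sq_nonneg (c ^ 2)])
  set s := Real.sqrt (1 - c ^ 2) with hsdef
  set t := Real.sqrt (1 - (c ^ 2) ^ 2) with htdef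
  -- the function `K`
  let K : (ι → ℝ) × (ι → ℝ) → ℝ := fun p =>
    ∫ z', gk m p.1 (fun j => c * (c * p.1 j - s * p.2 j) + s * z' j) ∂(G ι)
  have hKm : StronglyMeasurable K := by
    have : StronglyMeasurable (fun q : ((ι → ℝ) × (ι → ℝ)) × (ι → ℝ) =>
        gk m q.1.1 (fun j => c * (c * q.1.1 j - s * q.1.2 j) + s * q.2 j)) := by
      refine Measurable.stronglyMeasurable ?_
      have hq : Measurable (fun q : ((ι → ℝ) × (ι → ℝ)) × (ι → ℝ) =>
          ((q.1.1, (fun j => c * (c * q.1.1 j - s * q.1.2 j) + s * q.2 j)) :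
            (ι → ℝ) × (ι → ℝ))) := by fun_prop
      exact (gk_meas hm).comp hq
    exact this.integral_prod_right'
  have hKb : ∀ p, ‖K p‖ ≤ B := by
    intro p
    have := norm_integral_le_of_norm_le_const (μ := G ι) (C := B)
      (f := fun z' => gk m p.1 (fun j => c * (c * p.1 j - s * p.2 j) + s * z' j))
      (Filter.Eventually.of_forall fun z => by rw [Real.norm_eq_abs]; exact gk_bd hB _ _)
    simpa using this
  have hKi : Integrable K ((G ι).prod (G ι)) :=
    Integrable.of_bound hKm.aestronglyMeasurable B (Filter.Eventually.of_forall hKb)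
  have e1 : Psi m c = ∫ x, ∫ z, K ((fun i => c * x i + s * z i), (fun i => -s * x i + c * z i))
      ∂(G ι) ∂(G ι) := by
    unfold Psi
    refine integral_congr_ae (Filter.Eventually.of_forall fun x => ?_)
    simp only
    rw [stepA hm hB c x]
    refine integral_congr_ae (Filter.Eventually.of_forall fun z => ?_)
    simp only [K]
    refine integral_congr_ae (Filter.Eventually.of_forall fun z' => ?_)
    simp only
    congr 1
    funext j
    have : c * (c * (c * x j + s * z j) - s * (-s * x j + c * z j)) = c * x j * (c ^ 2 + s ^ 2) := by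
      ring
    rw [this, hs2]; ring
  have hKR : Integrable (fun p : (ι → ℝ) × (ι → ℝ) =>
      K ((fun i => c * p.1 i + s * p.2 i), (fun i => -s * p.1 i + c * p.2 i)))
      ((G ι).prod (G ι)) := hR.integrable_comp_of_integrable hKi
  have e2 : ∫ x, ∫ z, K ((fun i => c * x i + s * z i), (fun i => -s * x i + c * z i))
      ∂(G ι) ∂(G ι) = ∫ x, ∫ z, K (x, z) ∂(G ι) ∂(G ι) := by
    rw [← integral_prod (fun p : (ι → ℝ) × (ι → ℝ) =>
      K ((fun i => c * p.1 i + s * p.2 i), (fun i => -s * p.1 i + c * p.2 i))) hKR,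
      ← integral_prod K hKi]
    conv_rhs => rw [← hR.2]
    rw [integral_map hR.1.aemeasurable hKm.aestronglyMeasurable]
  rw [e1, e2]
  unfold Pair
  refine integral_congr_ae (Filter.Eventually.of_forall fun u => ?_)
  simp only [K]
  -- inner: law of `-c s w + s z'`
  have hl := lin ι (-(c * s)) s t (by rw [ht2]; nlinarith)
  let f : (ι → ℝ) → ℝ := fun y => gk m u (fun j => c ^ 2 * u j + y j)
  have hfm : Measurable f :=
    (gk_meas hm).comp (Measurable.prodMk measurable_const (by fun_prop))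
  have hfi : Integrable (fun p : (ι → ℝ) × (ι → ℝ) =>
      f (fun i => -(c * s) * p.1 i + s * p.2 i)) ((G ι).prod (G ι)) := by
    refine Integrable.of_bound (hfm.comp (by fun_prop)).aestronglyMeasurable B ?_
    exact Filter.Eventually.of_forall fun z => by rw [Real.norm_eq_abs]; exact gk_bd hB _ _
  have e3 : ∫ w, ∫ z', gk m u (fun j => c * (c * u j - s * w j) + s * z' j) ∂(G ι) ∂(G ι) =
      ∫ w, ∫ z', f (fun i => -(c * s) * w i + s * z' i) ∂(G ι) ∂(G ι) := by
    refine integral_congr_ae (Filter.Eventually.of_forall fun w => ?_)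
    refine integral_congr_ae (Filter.Eventually.of_forall fun z' => ?_)
    simp only [f]
    congr 1
    funext j
    ring
  rw [e3, ← integral_prod (fun p : (ι → ℝ) × (ι → ℝ) =>
      f (fun i => -(c * s) * p.1 i + s * p.2 i)) hfi]
  have e4 := integral_map (μ := (G ι).prod (G ι)) (f := f)
    (φ := fun p : (ι → ℝ) × (ι → ℝ) => (fun i => -(c * s) * p.1 i + s * p.2 i : ι → ℝ))
    (by fun_prop) hfm.aestronglyMeasurable
  have hmt : Measurable (fun z : ι → ℝ => (fun i => t * z i : ι → ℝ)) := by fun_prop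
  rw [← e4, hl, integral_map hmt.aemeasurable hfm.aestronglyMeasurable]
  rfl

theorem pair_sq (hm : Measurable m) (hB : ∀ x, ∑ i, m x i ^ 2 ≤ B) (c : ℝ) :
    Pair m c ^ 2 ≤ B * Psi m c := by
  set s := Real.sqrt (1 - c ^ 2) with hsdef
  let n : (ι → ℝ) → ι → ℝ := fun x i => ∫ z, m (fun j => c * x j + s * z j) i ∂(G ι)
  have hnm : ∀ i, StronglyMeasurable (fun x => n x i) := by
    intro i
    have : StronglyMeasurable (fun q : (ι → ℝ) × (ι → ℝ) =>
        m (fun j => c * q.1 j + s * q.2 j) i) := by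
      refine Measurable.stronglyMeasurable ?_
      exact (m_meas hm i).comp (by fun_prop)
    exact this.integral_prod_right'
  have hnb : ∀ x i, |n x i| ≤ Real.sqrt B := by
    intro x i
    have := norm_integral_le_of_norm_le_const (μ := G ι) (C := Real.sqrt B)
      (f := fun z => m (fun j => c * x j + s * z j) i)
      (Filter.Eventually.of_forall fun z => by rw [Real.norm_eq_abs]; exact m_bd hB _ _)
    simpa using this
  let F : (ι → ℝ) → ℝ := fun x => ∑ i, m x i * n x i
  have hPF : Pair m c = ∫ x, F x ∂(G ι) := by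
    unfold Pair
    refine integral_congr_ae (Filter.Eventually.of_forall fun x => ?_)
    simp only [F, n]
    rw [integral_finsetSum _ (fun i _ => (m_int hm hB i (by fun_prop)).const_mul _)]
    refine Finset.sum_congr rfl fun i _ => ?_
    rw [integral_const_mul]
  have hFm : StronglyMeasurable F := by
    refine Finset.stronglyMeasurable_fun_sum _ fun i _ => ?_
    exact (m_meas hm i).stronglyMeasurable.mul (hnm i)
  have hFb : ∀ x, |F x| ≤ ∑ _i : ι, B := by
    intro x
    refine (Finset.abs_sum_le_sum_abs _ _).trans (Finset.sum_le_sum fun i _ => ?_)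
    have hB0 : 0 ≤ B := (Finset.sum_nonneg fun i _ => sq_nonneg _).trans (hB x)
    rw [abs_mul]
    calc |m x i| * |n x i| ≤ Real.sqrt B * Real.sqrt B :=
          mul_le_mul (m_bd hB x i) (hnb x i) (abs_nonneg _) (Real.sqrt_nonneg _)
      _ = B := Real.mul_self_sqrt hB0
  have hFi : Integrable F (G ι) :=
    Integrable.of_bound hFm.aestronglyMeasurable _ (Filter.Eventually.of_forall fun x => by
      rw [Real.norm_eq_abs]; exact hFb x)
  have hF2m : StronglyMeasurable (fun x => F x ^ 2) := hFm.pow 2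
  have hF2i : Integrable (fun x => F x ^ 2) (G ι) := by
    refine Integrable.of_bound hF2m.aestronglyMeasurable ((∑ _i : ι, B) ^ 2)
      (Filter.Eventually.of_forall fun x => ?_)
    rw [Real.norm_eq_abs, abs_pow]
    exact pow_le_pow_left₀ (abs_nonneg _) (hFb x) 2
  have hn2m : StronglyMeasurable (fun x => ∑ i, n x i ^ 2) :=
    Finset.stronglyMeasurable_fun_sum _ fun i _ => (hnm i).pow 2
  have hn2i : Integrable (fun x => ∑ i, n x i ^ 2) (G ι) := by
    refine Integrable.of_bound hn2m.aestronglyMeasurable (∑ _i : ι, Real.sqrt B ^ 2)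
      (Filter.Eventually.of_forall fun x => ?_)
    rw [Real.norm_eq_abs]
    refine (Finset.abs_sum_le_sum_abs _ _).trans (Finset.sum_le_sum fun i _ => ?_)
    rw [abs_pow]
    exact pow_le_pow_left₀ (abs_nonneg _) (hnb x i) 2
  -- Jensen
  have hJ : (∫ x, F x ∂(G ι)) ^ 2 ≤ ∫ x, F x ^ 2 ∂(G ι) := by
    have h0 : 0 ≤ ∫ x, (F x - ∫ y, F y ∂(G ι)) ^ 2 ∂(G ι) :=
      integral_nonneg fun x => sq_nonneg _
    have h1 : ∫ x, (F x - ∫ y, F y ∂(G ι)) ^ 2 ∂(G ι) =
        ∫ x, F x ^ 2 ∂(G ι) - (∫ x, F x ∂(G ι)) ^ 2 := by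
      set I := ∫ y, F y ∂(G ι) with hI
      have : ∀ x, (F x - I) ^ 2 = (F x ^ 2 - 2 * I * F x) + I ^ 2 := fun x => by ring
      simp_rw [this]
      have hi1 : Integrable (fun x => F x ^ 2 - 2 * I * F x) (G ι) := hF2i.sub (hFi.const_mul _)
      rw [integral_add hi1 (integrable_const _),
        integral_sub hF2i (hFi.const_mul _), integral_const_mul, integral_const]
      simp only [probReal_univ, smul_eq_mul]
      rw [← hI]; ring
    linarith
  have hle : ∫ x, F x ^ 2 ∂(G ι) ≤ ∫ x, B * ∑ i, n x i ^ 2 ∂(G ι) := by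
    refine integral_mono hF2i (hn2i.const_mul _) fun x => ?_
    have h1 := Finset.sum_mul_sq_le_sq_mul_sq Finset.univ (fun i => m x i) (fun i => n x i)
    refine h1.trans (mul_le_mul_of_nonneg_right (hB x) (Finset.sum_nonneg fun i _ => sq_nonneg _))
  rw [integral_const_mul] at hle
  rw [hPF]
  exact hJ.trans hle

end

theorem tPair : TPair := by
  intro ι _ m B hm hB c h0 h1
  exact ⟨psi_eq hm hB c h0 h1, pair_sq hm hB c⟩

end Pool.Agent.H150R3.SK
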